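import Mathlib
import Pool.Agent.U506.RR.G7
set_option autoImplicit false

/-!
# The extension estimate for functions controlled along the rays from a point

`ext U f (ξ_1, ξ_2, ξ_3) = ∫_U e^{-i (x_1 ξ_1 + x_2 ξ_2 + (x_1² + x_2²) ξ_3)} f(x) dx`. For every
`q > 3`, in the full conjectured range, with constants depending on `q` only:

* A. `∫ |ext U f|^q ≤ C ∫_U f^q` for all `U ⊆ B(0, 1/2)` and all measurable `f ≥ 0`, zero outside
  `U`, which are nonincreasing along the rays from SOME point `p` of the plane (`p` may depend on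
  `f`). There is no condition in the angular variable.
* B. `∫ |ext S 1|^q ≤ C |S|` for all measurable star-shaped sets `S ⊆ B(0, 1/2)`.
* C. `∫ |ext U f|^q ≤ C (1 + A) R^{2q-6} ∫_U |f|^q` for all complex `f`, zero outside
  `U ⊆ closed disc (p, R)`, whose variation on each ray from `p` over each interval `(ρ/2, ρ]` is at
  most `A^{1/q}` times the mean `(ρ^{-2} ∫_{ρ/4}^ρ |f|^q r dr)^{1/q}`; for example
  `f(p + r ω) = r^α g(ω)` with arbitrary `g ∈ L^q(S¹)`.
* D. `∫ |ext U f|^q ≤ C R^{2q-4} ∫_{S¹} V^q` for all complex `f`, zero outside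
  `U ⊆ closed disc (p, R)`, whose total variation on the ray from `p` in the direction `θ` is at
  most `V(θ)`.
-/

namespace Pool.Agent.Results.MP_5ab805_an.AlongRays

open MeasureTheory Set Complex
open scoped ENNReal NNReal

/-- the Fourier extension operator of the paraboloid over `U` -/
noncomputable def ext (U : Set (ℝ × ℝ)) (f : ℝ × ℝ → ℂ) (ξ : ℝ × ℝ × ℝ) : ℂ :=
  ∫ x in U, cexp (-I * ((x.1 * ξ.1 + x.2 * ξ.2.1 + (x.1 ^ 2 + x.2 ^ 2) * ξ.2.2 : ℝ) : ℂ)) * f x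

/-- the point at distance `r` from `p` in the direction `(cos θ, sin θ)` -/
noncomputable def ray (p : ℝ × ℝ) (r θ : ℝ) : ℝ × ℝ :=
  (p.1 + r * Real.cos θ, p.2 + r * Real.sin θ)

/-- the open disc with centre `p` and radius `R` -/
def disc (p : ℝ × ℝ) (R : ℝ) : Set (ℝ × ℝ) := {x | (x.1 - p.1) ^ 2 + (x.2 - p.2) ^ 2 < R ^ 2}

/-- the closed disc with centre `p` and radius `R` -/
def cdisc (p : ℝ × ℝ) (R : ℝ) : Set (ℝ × ℝ) := {x | (x.1 - p.1) ^ 2 + (x.2 - p.2) ^ 2 ≤ R ^ 2}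

/-- A. Functions nonincreasing along the rays from a point. -/
def Nonincreasing : Prop :=
  ∀ q : ℝ, 3 < q → ∃ C : ℝ≥0, ∀ (U : Set (ℝ × ℝ)) (p : ℝ × ℝ) (f : ℝ × ℝ → ℝ),
    MeasurableSet U → U ⊆ disc 0 (1 / 2) → Measurable f → (∀ x, 0 ≤ f x) → (∀ x, x ∉ U → f x = 0) →
    (∀ θ, AntitoneOn (fun r => f (ray p r θ)) (Ioi 0)) →
    ∫⁻ ξ, ‖ext U (fun x => (f x : ℂ)) ξ‖ₑ ^ q ≤ C * ∫⁻ x in U, ‖f x‖ₑ ^ q

/-- B. Star-shaped sets. -/
def StarShaped : Prop :=
  ∀ q : ℝ, 3 < q → ∃ C : ℝ≥0, ∀ (S : Set (ℝ × ℝ)) (p : ℝ × ℝ),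
    MeasurableSet S → S ⊆ disc 0 (1 / 2) → StarConvex ℝ p S →
    ∫⁻ ξ, ‖ext S (fun _ => 1) ξ‖ₑ ^ q ≤ C * volume S

/-- C. The variation along the rays is controlled by the mean. -/
def DyadicVariation : Prop :=
  ∀ q : ℝ, 3 < q → ∃ C : ℝ≥0, ∀ (U : Set (ℝ × ℝ)) (p : ℝ × ℝ) (R : ℝ) (A : ℝ≥0) (f : ℝ × ℝ → ℂ),
    MeasurableSet U → 0 < R → U ⊆ cdisc p R → Measurable f → (∀ x, x ∉ U → f x = 0) →
    (∀ θ ρ : ℝ, 0 < ρ → eVariationOn (fun r => f (ray p r θ)) (Ioc (ρ / 2) ρ) ^ q ≤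
      A * ENNReal.ofReal (ρ ^ 2)⁻¹ *
        ∫⁻ r in Ioc (ρ / 4) ρ, ENNReal.ofReal r * ‖f (ray p r θ)‖ₑ ^ q) →
    ∫⁻ ξ, ‖ext U f ξ‖ₑ ^ q ≤
      C * (1 + A) * ENNReal.ofReal (R ^ (2 * q - 6)) * ∫⁻ x in U, ‖f x‖ₑ ^ q

/-- D. Bounded variation along the rays. -/
def RadialVariation : Prop :=
  ∀ q : ℝ, 3 < q → ∃ C : ℝ≥0, ∀ (U : Set (ℝ × ℝ)) (p : ℝ × ℝ) (R : ℝ) (f : ℝ × ℝ → ℂ)
    (V : ℝ → ℝ≥0∞),
    MeasurableSet U → 0 < R → U ⊆ cdisc p R → Measurable f → (∀ x, x ∉ U → f x = 0) →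
    Measurable V → (∀ θ, eVariationOn (fun r => f (ray p r θ)) (Ioi 0) ≤ V θ) →
    ∫⁻ ξ, ‖ext U f ξ‖ₑ ^ q ≤
      C * ENNReal.ofReal (R ^ (2 * q - 4)) * ∫⁻ θ in Ioc (-Real.pi) Real.pi, V θ ^ q

open Pool.Agent.U506.RR in
lemma ext_eq {U : Set (ℝ × ℝ)} {f : ℝ × ℝ → ℂ} (h0 : ∀ x, x ∉ U → f x = 0) (ξ : ℝ × ℝ × ℝ) :
    ext U f ξ = Kx f (-(ξ.1, ξ.2.1)) (-ξ.2.2) := by
  unfold ext Kx
  rw [setIntegral_eq_integral_of_forall_compl_eq_zero (fun x hx => by rw [h0 x hx, mul_zero])]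
  apply integral_congr_ae
  refine ae_of_all _ fun x => ?_
  simp only
  rw [mul_comm]
  congr 1
  unfold ph
  congr 1
  simp only [Prod.fst_neg, Prod.snd_neg]
  push_cast
  ring

open Pool.Agent.U506.RR in
lemma ext_int {q : ℝ} {U : Set (ℝ × ℝ)} {f : ℝ × ℝ → ℂ} (hf : Measurable f)
    (h0 : ∀ x, x ∉ U → f x = 0) :
    ∫⁻ ξ, ‖ext U f ξ‖ₑ ^ q = ∫⁻ t, ∫⁻ x : ℝ × ℝ, ‖Kx f x t‖ₑ ^ q := by
  simp only [ext_eq h0]
  exact freq_int (F := fun x t => ‖Kx f x t‖ₑ ^ q) ((Kx_meas hf).enorm.pow_const q)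

lemma int_U {q : ℝ} (hq : 0 < q) {E : Type*} [NormedAddCommGroup E] {U : Set (ℝ × ℝ)}
    (hU : MeasurableSet U) {f : ℝ × ℝ → E}
    (h0 : ∀ x, x ∉ U → f x = 0) : ∫⁻ x, ‖f x‖ₑ ^ q = ∫⁻ x in U, ‖f x‖ₑ ^ q := by
  rw [← lintegral_indicator hU]
  apply lintegral_congr
  intro x
  by_cases h : x ∈ U
  · rw [indicator_of_mem h]
  · rw [indicator_of_notMem h, h0 x h, enorm_zero, ENNReal.zero_rpow_of_pos hq]

open Pool.Agent.U506.RR in
lemma off {p : ℝ × ℝ} {R : ℝ} (hR : 0 < R) {U : Set (ℝ × ℝ)} (hU : U ⊆ cdisc p R)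
    {E : Type*} [Zero E] {f : ℝ × ℝ → E} (h0 : ∀ x, x ∉ U → f x = 0) (ξ : ℝ × ℝ)
    (h : R < ln (ξ - p)) : f ξ = 0 := by
  apply h0
  intro hx
  have h1 := hU hx
  unfold cdisc at h1
  simp only [mem_setOf_eq] at h1
  have h2 := ln_sq (ξ - p)
  simp only [Prod.fst_sub, Prod.snd_sub] at h2
  nlinarith

open Pool.Agent.U506.RR in
theorem nonincreasing : Nonincreasing := by
  intro q hq
  have hq0 : 0 < q := by linarith
  obtain ⟨K, hK, HK⟩ := Kx_anti hq
  lift K to ℝ≥0 using hK.ne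
  refine ⟨K, ?_⟩
  intro U p f hU hUd hf h0 hs ha
  have hs' : ∀ x, x ∉ U → ((f x : ℝ) : ℂ) = 0 := fun x hx => by rw [hs x hx, ofReal_zero]
  rw [ext_int (f := fun x => ((f x : ℝ) : ℂ)) (Complex.measurable_ofReal.comp hf) hs',
    ← int_U hq0 hU hs]
  rcases le_or_gt (p.1 ^ 2 + p.2 ^ 2) (1 / 4) with hp | hp
  · have hUc : U ⊆ cdisc p 1 := by
      intro x hx
      have h1 := hUd hx
      unfold disc at h1
      unfold cdisc
      simp only [mem_setOf_eq, Prod.fst_zero, Prod.snd_zero, sub_zero] at h1 ⊢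
      nlinarith [sq_nonneg (x.1 + p.1), sq_nonneg (x.2 + p.2)]
    have h := HK f hf h0 p 1 one_pos (off one_pos hUc hs) (fun θ _ => ha θ)
    rw [Real.one_rpow, ENNReal.ofReal_one, one_mul] at h
    exact h
  · have hz : ∀ x, f x = 0 := by
      intro x
      by_cases hx : x ∈ U
      swap
      · exact hs x hx
      -- polar coordinates around `p`
      obtain ⟨r, θ, hr, hxr⟩ : ∃ r θ : ℝ, 0 ≤ r ∧ x = ray p r θ := by
        refine ⟨‖(⟨x.1 - p.1, x.2 - p.2⟩ : ℂ)‖, Complex.arg ⟨x.1 - p.1, x.2 - p.2⟩,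
          norm_nonneg _, ?_⟩
        unfold ray
        have h1 := Complex.norm_mul_cos_arg (⟨x.1 - p.1, x.2 - p.2⟩ : ℂ)
        have h2 := Complex.norm_mul_sin_arg (⟨x.1 - p.1, x.2 - p.2⟩ : ℂ)
        rw [h1, h2]
        ext <;> simp
      have hr0 : 0 < r := by
        rcases hr.lt_or_eq with h | h
        · exact h
        · exfalso
          have h1 := hUd hx
          rw [hxr, ← h] at h1
          unfold disc ray at h1
          simp only [zero_mul, add_zero, mem_setOf_eq, Prod.fst_zero, Prod.snd_zero, sub_zero] at h1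
          linarith
      -- a nearby point outside the disc
      set L : ℝ := √(p.1 ^ 2 + p.2 ^ 2) with hL
      have hL2 : L ^ 2 = p.1 ^ 2 + p.2 ^ 2 := Real.sq_sqrt (by positivity)
      have hL0 : 1 / 2 < L := by
        rw [hL]
        apply Real.lt_sqrt_of_sq_lt
        linarith
      set r' : ℝ := min r (L - 1 / 2) with hr'
      have hr'0 : 0 < r' := lt_min hr0 (by linarith)
      have hr'r : r' ≤ r := min_le_left _ _
      have hr'L : r' ≤ L - 1 / 2 := min_le_right _ _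
      have hout : ray p r' θ ∉ U := by
        intro hin
        have h1 := hUd hin
        unfold disc ray at h1
        simp only [mem_setOf_eq, Prod.fst_zero, Prod.snd_zero, sub_zero] at h1
        have h2 := Real.sin_sq_add_cos_sq θ
        -- `|p + r' e| ≥ L - r' ≥ 1/2`
        have hcs : (p.1 * Real.cos θ + p.2 * Real.sin θ) ^ 2 ≤ L ^ 2 := by
          rw [hL2]
          nlinarith [sq_nonneg (p.1 * Real.sin θ - p.2 * Real.cos θ)]
        have hcs2 : -L ≤ p.1 * Real.cos θ + p.2 * Real.sin θ :=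
          (abs_le.1 (abs_le_of_sq_le_sq hcs (by linarith))).1
        have h3 : (p.1 + r' * Real.cos θ) ^ 2 + (p.2 + r' * Real.sin θ) ^ 2 =
            L ^ 2 + 2 * r' * (p.1 * Real.cos θ + p.2 * Real.sin θ) + r' ^ 2 := by
          rw [hL2]
          calc (p.1 + r' * Real.cos θ) ^ 2 + (p.2 + r' * Real.sin θ) ^ 2 =
              p.1 ^ 2 + p.2 ^ 2 + 2 * r' * (p.1 * Real.cos θ + p.2 * Real.sin θ) +
                r' ^ 2 * (Real.sin θ ^ 2 + Real.cos θ ^ 2) := by ring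
            _ = _ := by rw [h2, mul_one]
        rw [h3] at h1
        have h4 : (L - r') ^ 2 ≤ L ^ 2 + 2 * r' * (p.1 * Real.cos θ + p.2 * Real.sin θ) + r' ^ 2 := by
          nlinarith
        nlinarith
      have h5 := ha θ (show r' ∈ Ioi (0 : ℝ) from hr'0) (show r ∈ Ioi (0 : ℝ) from hr0) hr'r
      simp only at h5
      rw [hs _ hout, ← hxr] at h5
      exact le_antisymm h5 (h0 x)
    have hz' : ∀ x t, Kx (fun ξ => ((f ξ : ℝ) : ℂ)) x t = 0 := by
      intro x t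
      unfold Kx
      simp only [hz, ofReal_zero, zero_mul, integral_zero]
    simp only [hz', enorm_zero, ENNReal.zero_rpow_of_pos hq0, lintegral_zero]
    exact bot_le

theorem starShaped : StarShaped := by
  intro q hq
  have hq0 : 0 < q := by linarith
  obtain ⟨C, hC⟩ := nonincreasing q hq
  refine ⟨C, ?_⟩
  intro S p hS hSd hst
  have h := hC S p (S.indicator fun _ => 1) hS hSd (measurable_const.indicator hS)
    (fun x => indicator_nonneg (fun _ _ => zero_le_one) x) (fun x hx => indicator_of_notMem hx _) ?_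
  · have e1 : ∀ ξ, ext S (fun x => ((S.indicator (fun _ => (1 : ℝ)) x : ℝ) : ℂ)) ξ =
        ext S (fun _ => 1) ξ := by
      intro ξ
      unfold ext
      apply setIntegral_congr_fun hS
      intro x hx
      simp only
      rw [indicator_of_mem hx, ofReal_one]
    have e2 : ∫⁻ x in S, ‖S.indicator (fun _ => (1 : ℝ)) x‖ₑ ^ q = volume S := by
      have : ∫⁻ x in S, ‖S.indicator (fun _ => (1 : ℝ)) x‖ₑ ^ q = ∫⁻ x in S, 1 := by
        apply setLIntegral_congr_fun hS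
        intro x hx
        simp only
        rw [indicator_of_mem hx]
        simp
      rw [this, setLIntegral_one]
    simp only [e1] at h
    rw [e2] at h
    exact h
  · intro θ r' hr' r hr hrr
    simp only
    by_cases h1 : ray p r θ ∈ S
    · have h2 : ray p r' θ ∈ S := by
        have hr0 : (0 : ℝ) < r := hr
        have hr0' : (0 : ℝ) < r' := hr'
        have h3 := hst h1 (a := 1 - r' / r) (b := r' / r)
          (by
            rw [sub_nonneg, div_le_one hr0]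
            exact hrr) (by positivity) (by ring)
        have h4 : (1 - r' / r) • p + (r' / r) • ray p r θ = ray p r' θ := by
          unfold ray
          ext
          · simp only [Prod.fst_add, Prod.smul_fst, smul_eq_mul]
            field_simp
            ring
          · simp only [Prod.snd_add, Prod.smul_snd, smul_eq_mul]
            field_simp
            ring
        rw [h4] at h3
        exact h3
      rw [indicator_of_mem h1, indicator_of_mem h2]
    · rw [indicator_of_notMem h1]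
      exact indicator_nonneg (fun _ _ => zero_le_one) _

open Pool.Agent.U506.RR in
theorem dyadicVariation : DyadicVariation := by
  intro q hq
  have hq0 : 0 < q := by linarith
  obtain ⟨K, hK, HK⟩ := Kx_mean hq
  lift K to ℝ≥0 using hK.ne
  refine ⟨K * 4, ?_⟩
  intro U p R A f hU hR hUd hf h0 hv
  rw [ext_int hf h0, ← int_U hq0 hU h0]
  refine (HK f hf p R hR (off hR hUd h0) A (fun θ _ => hv θ)).trans ?_
  have h1 : (4 + 2 * (A : ℝ≥0∞)) ≤ 4 * (1 + A) := by
    rw [mul_add, mul_one]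
    gcongr
    norm_num
  calc (K : ℝ≥0∞) * ((4 + 2 * (A : ℝ≥0∞)) * (ENNReal.ofReal (R ^ (2 * q - 6)) *
        ∫⁻ ξ, ‖f ξ‖ₑ ^ q)) ≤ (K : ℝ≥0∞) * ((4 * (1 + A)) * (ENNReal.ofReal (R ^ (2 * q - 6)) *
        ∫⁻ ξ, ‖f ξ‖ₑ ^ q)) := by gcongr
    _ = _ := by
        push_cast
        ring

open Pool.Agent.U506.RR in
theorem radialVariation : RadialVariation := by
  intro q hq
  obtain ⟨K, hK, HK⟩ := Kx_var hq
  lift K to ℝ≥0 using hK.ne
  refine ⟨K, ?_⟩
  intro U p R f V hU hR hUd hf h0 hV hv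
  rw [ext_int hf h0]
  exact HK f hf p R hR (off hR hUd h0) V hV (fun θ _ => hv θ)

theorem result : Nonincreasing ∧ StarShaped ∧ DyadicVariation ∧ RadialVariation :=
  ⟨nonincreasing, starShaped, dyadicVariation, radialVariation⟩

end Pool.Agent.Results.MP_5ab805_an.AlongRays
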