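import Pool.Agent.U571.BS.Strong

/-!
# The extension conjecture in `ℝ³` on sets whose horizontal slices are discs

Points of `ℝ³` are written as `ξ = (ξ', ξ₃)` with `ξ' ∈ ℝ²`, and
`ext U f ξ = ∫_U e^{-i(x·ξ' + |x|² ξ₃)} f(x) dx` is the extension operator of the paraboloid,
`U ⊆ B(0,1/2)`. Question Q1 asks whether `‖ext U f‖_q ≤ C ‖f‖_q` for all `q > 3`. By Hölder's
inequality this would give `∫_B |ext U f|² ≤ C |B|^{1 - 2/q} ‖f‖_q²` for every measurable set `B`.

Here this is proved, for all `q > 3` and all `f ∈ L^q(U)`, for all sets `B` whose slices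
`B ∩ {ξ₃ = const}` are discs, with arbitrary measurable centres `c(ξ₃)` and radii `r(ξ₃)` over an
arbitrary measurable set of heights `T`. As a consequence, the set of the heights at which some disc
of radius `r` carries more than `σ` of the mass `∫ |ext U f(·, ξ₃)|²` has measure at most
`C r^{q-2} σ^{-q/2} ‖f‖_q^q`, which is what Q1 predicts.
-/

set_option autoImplicit false

open MeasureTheory Metric Set
open scoped Real ENNReal NNReal RealInnerProductSpace

namespace Pool.Agent.Results.MP_5ab805_an.BallSlices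

/-- `ℝ²` -/
abbrev E : Type := EuclideanSpace ℝ (Fin 2)

/-- the extension operator of the paraboloid over `U`, at the point `ξ = (ξ', ξ₃)` of `ℝ² × ℝ` -/
noncomputable def ext (U : Set E) (f : E → ℂ) (ξ : E × ℝ) : ℂ :=
  ∫ x in U, Complex.exp (-((⟪x, ξ.1⟫ + (x 0 ^ 2 + x 1 ^ 2) * ξ.2 : ℝ) : ℂ) * Complex.I) * f x

/-- the set whose slice at height `t ∈ T` is the disc with centre `c t` and radius `r t` -/
def slices (T : Set ℝ) (c : ℝ → E) (r : ℝ → ℝ) : Set (E × ℝ) :=
  {ξ | ξ.2 ∈ T ∧ ξ.1 ∈ ball (c ξ.2) (r ξ.2)}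

lemma dn_E : Pool.Agent.U571.BS.dn E = 2 := by
  unfold Pool.Agent.U571.BS.dn
  rw [finrank_euclideanSpace, Fintype.card_fin]
  norm_num

lemma norm_ext (U : Set E) (f : E → ℂ) (ξ : E × ℝ) :
    ‖ext U f ξ‖ₑ = ‖Pool.Agent.U571.BS.FU U (fun x => starRingEnd ℂ (f x)) ξ.2 ξ.1‖ₑ := by
  have h : ext U f ξ =
      starRingEnd ℂ (Pool.Agent.U571.BS.FU U (fun x => starRingEnd ℂ (f x)) ξ.2 ξ.1) := by
    unfold ext Pool.Agent.U571.BS.FU
    rw [← integral_conj]
    refine integral_congr_ae (Filter.Eventually.of_forall fun x => ?_)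
    simp only
    rw [map_mul, Complex.conj_conj, Pool.Agent.U571.BS.conj_ph, mul_comm]
    congr 2
    have : ‖x‖ ^ 2 = x 0 ^ 2 + x 1 ^ 2 := by
      rw [EuclideanSpace.norm_sq_eq, Fin.sum_univ_two, Real.norm_eq_abs, Real.norm_eq_abs, sq_abs,
        sq_abs]
    rw [this]
    push_cast
    ring
  rw [h, ← ofReal_norm, ← ofReal_norm, RCLike.norm_conj]

/-- For every `q > 3` there is a constant `C` such that for all measurable `U ⊆ B(0,1/2)` and all
`f ∈ L^q(U)`: (1) `∫_B |ext U f|² ≤ C |B|^{1-2/q} ‖f‖_q²` for every set `B` whose horizontal slices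
are discs; (2) for all `r > 0` and `σ`, the set of the heights `t` for which
`∫_{B(y,r)} |ext U f(ξ',t)|² dξ' > σ` for some `y` has measure at most
`C r^{q-2} σ^{-q/2} ‖f‖_q^q`. -/
theorem result (q : ℝ) (hq : 3 < q) :
    ∃ C : ℝ≥0, ∀ U : Set E, MeasurableSet U → U ⊆ ball 0 (1 / 2) →
      ∀ f : E → ℂ, MemLp f (ENNReal.ofReal q) (volume.restrict U) →
      (∀ (T : Set ℝ) (c : ℝ → E) (r : ℝ → ℝ), MeasurableSet T → Measurable c → Measurable r →
        ∫⁻ ξ in slices T c r, ‖ext U f ξ‖ₑ ^ 2 ≤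
          C * volume (slices T c r) ^ (1 - 2 / q) *
            eLpNorm f (ENNReal.ofReal q) (volume.restrict U) ^ 2) ∧
      (∀ (r : ℝ) (σ : ℝ≥0∞), 0 < r →
        σ ^ (q / 2) * volume {t : ℝ | ∃ y : E, σ < ∫⁻ ξ in ball y r, ‖ext U f (ξ, t)‖ₑ ^ 2} ≤
          C * ENNReal.ofReal r ^ (q - 2) *
            eLpNorm f (ENNReal.ofReal q) (volume.restrict U) ^ q) := by
  have hq0 : 0 < q := by linarith
  set α := 1 - 2 / q with hα
  have hα1 : α < 1 := by
    have : 0 < 2 / q := by positivity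
    linarith
  have hα3 : 1 / ((2 : ℝ) + 1) < α := by
    have : 2 / q < 2 / 3 := div_lt_div_of_pos_left (by norm_num) (by norm_num) hq
    rw [hα]
    norm_num
    linarith
  have hα0 : 0 < α := by
    have : (0 : ℝ) < 1 / (2 + 1) := by norm_num
    linarith
  obtain ⟨C, hC, HC⟩ := Pool.Agent.U571.BS.strong (V := E) (q := q) (1 / 2)
    (by rw [dn_E]) (by rw [dn_E]; exact hα3) hq0
  set v1 := volume (ball (0 : E) 1) with hv1
  have hv1t : v1 ≠ ∞ := Metric.isBounded_ball.measure_lt_top.ne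
  set K2 : ℝ≥0∞ := C ^ (q / 2) * (ENNReal.ofReal (2 ^ 2) * v1) ^ ((q - 2) / 2) with hK2
  have hK2t : K2 ≠ ∞ := ENNReal.mul_ne_top
    (ENNReal.rpow_ne_top_of_nonneg (by positivity) hC)
    (ENNReal.rpow_ne_top_of_nonneg (by linarith) (ENNReal.mul_ne_top ENNReal.ofReal_ne_top hv1t))
  refine ⟨(C + K2).toNNReal, fun U hU hUb f hf => ?_⟩
  rw [ENNReal.coe_toNNReal (ENNReal.add_ne_top.2 ⟨hC, hK2t⟩)]
  set g : E → ℂ := fun x => starRingEnd ℂ (f x) with hg
  have hgf : ∀ x, ‖g x‖ = ‖f x‖ := fun x => by simp only [hg, RCLike.norm_conj]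
  have hUc : U ⊆ closedBall 0 (1 / 2) := hUb.trans ball_subset_closedBall
  have hgm : MemLp g (ENNReal.ofReal q) (volume.restrict U) := by
    refine (memLp_congr_norm ?_ hf.1 (Filter.Eventually.of_forall hgf)).2 hf
    exact Complex.continuous_conj.comp_aestronglyMeasurable hf.1
  have hnorm : eLpNorm g (ENNReal.ofReal q) (volume.restrict U) =
      eLpNorm f (ENNReal.ofReal q) (volume.restrict U) :=
    eLpNorm_congr_norm_ae (Filter.Eventually.of_forall hgf)
  set Λ := eLpNorm f (ENNReal.ofReal q) (volume.restrict U) with hΛ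
  have hvU : volume U ≠ ∞ := ne_top_of_le_ne_top
    ((isCompact_closedBall (0 : E) (1 / 2)).measure_lt_top.ne) (measure_mono hUc)
  have : IsFiniteMeasure (volume.restrict U) :=
    ⟨by rw [Measure.restrict_apply_univ]; exact hvU.lt_top⟩
  have hq1 : (1 : ℝ≥0∞) ≤ ENNReal.ofReal q := by
    rw [← ENNReal.ofReal_one]
    exact ENNReal.ofReal_le_ofReal (by linarith)
  have hgi : Integrable g (volume.restrict U) := hgm.integrable hq1
  have hcont : Continuous (fun z : ℝ × E => Pool.Agent.U571.BS.FU U g z.1 z.2) :=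
    Pool.Agent.U571.BS.FU_meas hU hgi
  have hSB := HC U hU hUc g hgm
  rw [hnorm] at hSB
  have hGeq : (fun (l : ℝ) (ξ : E) => ‖Pool.Agent.U571.BS.FU U g l ξ‖ₑ ^ 2) =
      fun l ξ => ‖ext U f (ξ, l)‖ₑ ^ 2 := by
    ext l ξ
    rw [norm_ext]
  rw [hGeq] at hSB
  have hm : Measurable (fun ξ : E × ℝ => ‖ext U f ξ‖ₑ ^ 2) := by
    have h1 : (fun ξ : E × ℝ => ‖ext U f ξ‖ₑ ^ 2) = fun ξ : E × ℝ =>
        ‖Pool.Agent.U571.BS.FU U g ξ.2 ξ.1‖ₑ ^ 2 := by
      ext ξ
      rw [norm_ext]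
    rw [h1]
    exact (hcont.comp continuous_swap).measurable.enorm.pow_const 2
  constructor
  · intro T c r hT hc hr
    have h1 : ∫⁻ ξ in slices T c r, ‖ext U f ξ‖ₑ ^ 2 =
        ∫⁻ l in T, ∫⁻ ξ in ball (c l) (r l), ‖ext U f (ξ, l)‖ₑ ^ 2 :=
      Pool.Agent.U571.BS.lint_slices hT hc hr hm
    have h2 : volume (slices T c r) = Pool.Agent.U571.BS.vb T c r :=
      Pool.Agent.U571.BS.volume_slices hT hc hr
    rw [h1, h2]
    refine (hSB T c r hT hc hr).trans ?_
    calc C * Λ ^ 2 * Pool.Agent.U571.BS.vb T c r ^ α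
        = C * Pool.Agent.U571.BS.vb T c r ^ α * Λ ^ 2 := by ring
      _ ≤ (C + K2) * Pool.Agent.U571.BS.vb T c r ^ α * Λ ^ 2 := by
          gcongr
          exact le_self_add
  · intro r σ hr
    have hGm : Measurable (Function.uncurry (fun (l : ℝ) (ξ : E) => ‖ext U f (ξ, l)‖ₑ ^ 2)) :=
      hm.comp measurable_swap
    have h1 := Pool.Agent.U571.BS.conc hGm hα0 hα1 hSB hr σ
    have a1 : 1 / (1 - α) = q / 2 := by rw [hα]; field_simp; ring
    have a2 : α / (1 - α) = (q - 2) / 2 := by rw [hα]; field_simp; ring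
    rw [a1, a2] at h1
    refine h1.trans ?_
    have b1 : (C * Λ ^ 2) ^ (q / 2) = C ^ (q / 2) * Λ ^ q := by
      rw [ENNReal.mul_rpow_of_nonneg _ _ (by positivity), ← ENNReal.rpow_natCast Λ 2,
        ← ENNReal.rpow_mul]
      congr 2
      push_cast
      ring
    have b2 : volume (ball (0 : E) (2 * r)) ^ ((q - 2) / 2) =
        (ENNReal.ofReal (2 ^ 2) * v1) ^ ((q - 2) / 2) * ENNReal.ofReal r ^ (q - 2) := by
      rw [Measure.addHaar_ball_of_pos _ _ (by positivity), finrank_euclideanSpace,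
        Fintype.card_fin, mul_pow, ENNReal.ofReal_mul (by positivity)]
      have c1 : ENNReal.ofReal (2 ^ 2) * ENNReal.ofReal (r ^ 2) * volume (ball (0 : E) 1) =
          (ENNReal.ofReal (2 ^ 2) * v1) * ENNReal.ofReal r ^ 2 := by
        rw [ENNReal.ofReal_pow hr.le, hv1]; ring
      rw [c1, ENNReal.mul_rpow_of_nonneg _ _ (by linarith), ← ENNReal.rpow_natCast,
        ← ENNReal.rpow_mul]
      congr 2
      push_cast
      ring
    rw [b1, b2]
    calc C ^ (q / 2) * Λ ^ q *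
          ((ENNReal.ofReal (2 ^ 2) * v1) ^ ((q - 2) / 2) * ENNReal.ofReal r ^ (q - 2))
        = K2 * ENNReal.ofReal r ^ (q - 2) * Λ ^ q := by
          rw [hK2]; ring
      _ ≤ _ := by
          gcongr
          exact le_add_self

end Pool.Agent.Results.MP_5ab805_an.BallSlices
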