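import Pool.Agent.U562.HD.New
set_option autoImplicit false

/-!
# The extension conjecture for the paraboloid in `ℝ³`: harmonic, quasi-harmonic and piecewise
polynomial densities, with arbitrary one-dimensional singular sets

`ext U f ξ = ∫_U e^{-i Φ(x)·ξ} f(x) dx`, `Φ(x) = (x_1, x_2, x_1² + x_2²)`. The conjecture says
`‖ext U f‖_q ≤ C ‖f‖_q` for all `q > 3`.

We prove this inequality, in the full range `q > 3`, for the densities on an open set `U` which off a
closed set `S` are
* harmonic, or
* quasi-harmonic: `dist(x, K) |∇f(x)| ≤ N · (mean of |f| over the disc of radius dist(x, K)/2)`, or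
* piecewise polynomial of bounded degree (any number of pieces: polynomials of degree at most `k` in
  each variable on the components of `U \ S`), for example step functions and splines,
if `K = ∂U ∪ S` is one-dimensional (`Thin A K`: in every disc of radius `ρ` the `s`-neighbourhood of
`K` has area at most `A ρ s`; finite unions of Lipschitz curves have this property). More generally,
for densities of class `C¹` on `U \ S`, we prove it with the weighted Sobolev norm
`‖f‖_p + ‖dist(·, K) ∇f‖_p`, for all `p ∈ (max(2, q/(q-2)), q]`. The constants depend only on `q`,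
`p`, `A` (and `N` or `k`), and the densities may be multiplied by any of the characters
`e^{iΦ(x)·η}`, so they may oscillate.

For `3 < q < 4` this is beyond Tomas-Stein. No wave packet or Kakeya information is used: the
proof telescopes `f` over Gaussian mollifications at the scales `4^{-j}`, localises each piece to
discs whose radius depends on the time `ξ_3`, and interpolates between `L¹` and `L²` in them. The
piecewise polynomials are quasi-harmonic by an affine invariant norm equivalence, and the quasi-harmonic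
case follows from the weighted one by a Fubini argument in Whitney discs.
-/

namespace Pool.Agent.Results.MP_5ab805_an.DensitiesOffCurves

open MeasureTheory Set Metric Complex
open scoped ENNReal NNReal RealInnerProductSpace

abbrev E (n : ℕ) := EuclideanSpace ℝ (Fin n)

/-- the paraboloid `x ↦ (x_1, x_2, x_1^2 + x_2^2)` -/
noncomputable def Phi (x : E 2) : E 3 := !₂[x 0, x 1, x 0 ^ 2 + x 1 ^ 2]

/-- the Fourier extension operator of the paraboloid over `U` -/
noncomputable def ext (U : Set (E 2)) (f : E 2 → ℂ) (ξ : E 3) : ℂ :=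
  ∫ x in U, Complex.exp (-((⟪Phi x, ξ⟫ : ℝ) : ℂ) * I) * f x

/-- the character `x ↦ e^{i Φ(x)·η}` -/
noncomputable def chr (η : E 3) (x : E 2) : ℂ := Complex.exp (((⟪Phi x, η⟫ : ℝ) : ℂ) * I)

/-- In every disc of radius `ρ` the `s`-neighbourhood of `K` has area at most `A ρ s`. -/
def Thin (A : ℝ) (K : Set (E 2)) : Prop :=
  ∀ (b : E 2) (ρ s : ℝ), 0 < ρ → 0 < s →
    volume (ball b ρ ∩ {x | infDist x K < s}) ≤ ENNReal.ofReal (A * ρ * s)

/-- `K` is covered by the graphs of `N` functions over the coordinate axes (`x_2 = γ(x_1)` or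
`x_1 = γ(x_2)`), each `L`-Lipschitz. -/
def LipCurves (N : ℕ) (L : ℝ≥0) (K : Set (E 2)) : Prop :=
  ∃ (γ : Fin N → ℝ → ℝ) (j : Fin N → Fin 2), (∀ i, LipschitzWith L (γ i)) ∧
    ∀ x ∈ K, ∃ i, x (1 - j i) = γ i (x (j i))

/-- The mean value property in `W`: `f x` is the average of `f` over `ball x r` whenever the closed
ball is contained in `W`. For locally integrable `f` and open `W` this says exactly that `f` is
harmonic in `W`. -/
def MeanValue (W : Set (E 2)) (f : E 2 → ℂ) : Prop :=
  ∀ x r, 0 < r → closedBall x r ⊆ W → f x = ⨍ y in ball x r, f y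

/-- `f` is quasi-harmonic in `W` with respect to `K`: at every `x ∈ W`, `d |∇f(x)|` is at most `N`
times the average of `|f|` over the disc around `x` of radius `d / 2`, `d = dist(x, K)`. -/
def QuasiHarmonic (N : ℝ) (K W : Set (E 2)) (f : E 2 → ℂ) : Prop :=
  ∀ x ∈ W, ENNReal.ofReal (infDist x K) * ‖fderiv ℝ f x‖ₑ ≤
    ENNReal.ofReal N * ⨍⁻ y in ball x (infDist x K / 2), ‖f y‖ₑ ∂volume

/-- the polynomial `∑ c_{ij} y_1^i y_2^j`, `i, j ≤ k` -/
noncomputable def poly {k : ℕ} (c : Fin (k + 1) → Fin (k + 1) → ℂ) (y : E 2) : ℂ :=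
  ∑ i, ∑ j, c i j * ((y 0 : ℝ) : ℂ) ^ (i : ℕ) * ((y 1 : ℝ) : ℂ) ^ (j : ℕ)

/-- `f` is piecewise polynomial in `W`: in every disc contained in `W` it is a polynomial of degree at
most `k` in each variable (for open `W`: on every component of `W`). -/
def PiecewisePolynomial (k : ℕ) (W : Set (E 2)) (f : E 2 → ℂ) : Prop :=
  ∀ x r, 0 < r → ball x r ⊆ W → ∃ c : Fin (k + 1) → Fin (k + 1) → ℂ, ∀ y ∈ ball x r, f y = poly c y

/-- (1) Finite unions of Lipschitz graphs are thin. (2) For `3 < q`, `max (2, q/(q-2)) < p ≤ q` and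
`A` there is `C` such that for all open `U` in the unit disc, closed `S` with `∂U ∪ S` thin with
constant `A`, and all characters, the extension of `chr η · f` has `L^q` norm at most
`C (‖f‖_p + ‖dist(·, ∂U ∪ S) ∇f‖_p)` for all `f` of class `C¹` on `U \ S`; at most `C ‖f‖_p` if `f`
has the mean value property in `U \ S`; and at most `C (1 + N) ‖f‖_p` if `f` is quasi-harmonic there
with the constant `N`. (3) In particular (with `C` depending also on `k`) at most `C ‖f‖_p` for all
piecewise polynomials. -/
theorem result :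
    (∀ (N : ℕ) (L : ℝ≥0) (K : Set (E 2)), K.Nonempty → LipCurves N L K →
      Thin (4 * N * (1 + L)) K) ∧
    (∀ q p A : ℝ, 3 < q → 2 < p → q / (q - 2) < p → p ≤ q → 0 ≤ A → ∃ C : ℝ≥0,
      ∀ U S : Set (E 2), IsOpen U → U ⊆ ball 0 1 → IsClosed S → Thin A (frontier U ∪ S) →
        ∀ (η : E 3) (f : E 2 → ℂ),
          (ContDiffOn ℝ 1 f (U \ S) →
            eLpNorm (ext U fun x => chr η x * f x) (ENNReal.ofReal q) volume ≤
              C * (eLpNorm f (ENNReal.ofReal p) (volume.restrict U) +
                eLpNorm (fun x => infDist x (frontier U ∪ S) * ‖fderiv ℝ f x‖) (ENNReal.ofReal p)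
                  (volume.restrict U))) ∧
          (Measurable f → MeanValue (U \ S) f →
            eLpNorm (ext U fun x => chr η x * f x) (ENNReal.ofReal q) volume ≤
              C * eLpNorm f (ENNReal.ofReal p) (volume.restrict U)) ∧
          ∀ N : ℝ, 0 ≤ N → ContDiffOn ℝ 1 f (U \ S) →
            QuasiHarmonic N (frontier U ∪ S) (U \ S) f →
            eLpNorm (ext U fun x => chr η x * f x) (ENNReal.ofReal q) volume ≤
              ENNReal.ofReal (1 + N) * (C * eLpNorm f (ENNReal.ofReal p) (volume.restrict U))) ∧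
    ∀ (q p A : ℝ) (k : ℕ), 3 < q → 2 < p → q / (q - 2) < p → p ≤ q → 0 ≤ A → ∃ C : ℝ≥0,
      ∀ U S : Set (E 2), IsOpen U → U ⊆ ball 0 1 → IsClosed S → Thin A (frontier U ∪ S) →
        ∀ (η : E 3) (f : E 2 → ℂ), PiecewisePolynomial k (U \ S) f →
          eLpNorm (ext U fun x => chr η x * f x) (ENNReal.ofReal q) volume ≤
            C * eLpNorm f (ENNReal.ofReal p) (volume.restrict U) :=
  ⟨Pool.Agent.U562.HD.Old.result.1, Pool.Agent.U562.HD.Old.new_two,
    Pool.Agent.U562.HD.Old.new_three⟩

end Pool.Agent.Results.MP_5ab805_an.DensitiesOffCurves
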