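import Mathlib
import Pool.Agent.N248.RR.Z
set_option autoImplicit false

/-!
# The extension conjecture for the paraboloid in `ℝ³` on random regions

Let `ext U f ξ = ∫_U e^{-i Φ(x)·ξ} f(x) dx`, `Φ(x) = (x_1, x_2, x_1² + x_2²)`, `U ⊆ B(0,1/2)` with
nonempty interior. For `0 < a ≤ 1` let `W` be the union of the unit cubes with index `j ∈ ℤ³` that
are chosen independently with probability comparable with `(1 + |j|)^(-a)`, a random region of
dimension `3 - a` at infinity. Almost surely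

* `ext U` is bounded from `L^s(U)` to `L^q(W)` for all `s ≥ 2` and all `q > 4 - 2a`;
* it is not bounded from `L²(U)` to `L^q(W)` for `q < 4 - 2a`;
* it is not bounded from `L^s(U)` to `L^q(W)` for `q < 3 - a`, for any `s`, not even for `s = ∞`.

For `a = 1` both thresholds are `2`: the extension conjecture holds on these regions in its full
range, `q > 2`, even for `f ∈ L²`. For all `a` every range of the extension theorem is transferred to
the random region: if `ext U` is bounded from `L^s(U)` to `L^p'(ℝ³)` for all `p' > p`, then almost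
surely it is bounded from `L^s(U)` to `L^q(W)` for all `q > p - a (p - 2)`. In particular a positive
answer to the question implies that almost surely `ext U` is bounded from `L^∞(U)` to `L^q(W)` for
all `q > 3 - a`, the full range.

The proof (project RR of the library, `Pool/Agent/N248/RR`): for a level `λ` the number of the unit
cubes in which `|ext U f|` exceeds `λ` is controlled for all `f` in the unit ball of `L²` at the same
time, by a net for the level sets (dual Sudakov inequality, packing), the independence of the cubes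
and the decay of the Fourier transform of the surface measure.
-/

namespace Pool.Agent.Results.MP_5ab805_an.RandomRegions

open MeasureTheory Set Metric Complex
open scoped ENNReal NNReal RealInnerProductSpace

/-- the paraboloid `x ↦ (x_1, x_2, x_1^2 + x_2^2)` -/
noncomputable def Phi (x : EuclideanSpace ℝ (Fin 2)) : EuclideanSpace ℝ (Fin 3) :=
  !₂[x 0, x 1, x 0 ^ 2 + x 1 ^ 2]

/-- the Fourier extension operator of the paraboloid over `U` -/
noncomputable def ext (U : Set (EuclideanSpace ℝ (Fin 2))) (f : EuclideanSpace ℝ (Fin 2) → ℂ)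
    (ξ : EuclideanSpace ℝ (Fin 3)) : ℂ :=
  ∫ x in U, Complex.exp (-((⟪Phi x, ξ⟫ : ℝ) : ℂ) * I) * f x

/-- the unit cube `j + [0,1)³` -/
def cube (j : Fin 3 → ℤ) : Set (EuclideanSpace ℝ (Fin 3)) :=
  {ξ | ∀ i, (j i : ℝ) ≤ ξ i ∧ ξ i < j i + 1}

/-- `A j` is the event that the cube with index `j` is chosen: these events are independent, and
their probabilities are comparable with `(1 + |j|)^(-a)`. -/
structure Choice {Ω : Type} [MeasurableSpace Ω] (P : Measure Ω) (A : (Fin 3 → ℤ) → Set Ω)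
    (a : ℝ) : Prop where
  meas : ∀ j, MeasurableSet (A j)
  indep : ProbabilityTheory.iIndepSet A P
  low : ∃ c : ℝ, 0 < c ∧ ∀ j, ENNReal.ofReal (c * (1 + ‖j‖) ^ (-a)) ≤ P (A j)
  up : ∃ c : ℝ, ∀ j, P (A j) ≤ ENNReal.ofReal (c * (1 + ‖j‖) ^ (-a))

/-- the random region: the union of the chosen cubes -/
def region {Ω : Type} (A : (Fin 3 → ℤ) → Set Ω) (ω : Ω) : Set (EuclideanSpace ℝ (Fin 3)) :=
  ⋃ j ∈ {j | ω ∈ A j}, cube j

/-- `‖ext U f‖_{L^q(W)} ≤ C ‖f‖_{L^s(U)}` for all `f ∈ L^s(U)`, with a finite constant `C` -/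
def Bounded (U : Set (EuclideanSpace ℝ (Fin 2))) (s : ℝ≥0∞) (q : ℝ)
    (W : Set (EuclideanSpace ℝ (Fin 3))) : Prop :=
  ∃ C : ℝ≥0, ∀ f : EuclideanSpace ℝ (Fin 2) → ℂ, MemLp f s (volume.restrict U) →
    eLpNorm (ext U f) (ENNReal.ofReal q) (volume.restrict W) ≤
      C * eLpNorm f s (volume.restrict U)

lemma Phi_eq (x : EuclideanSpace ℝ (Fin 2)) : Phi x = Pool.Agent.R412.RT.Phi x := by
  ext i
  have h0 : Pool.Agent.R412.RT.Phi x (0 : Fin 3) = x 0 := Pool.Agent.R412.RT.Phi_cast x 0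
  have h1 : Pool.Agent.R412.RT.Phi x (1 : Fin 3) = x 1 := Pool.Agent.R412.RT.Phi_cast x 1
  have h2 : Pool.Agent.R412.RT.Phi x (2 : Fin 3) = ∑ i, x i ^ 2 := Pool.Agent.R412.RT.Phi_last x
  fin_cases i
  · exact h0.symm
  · exact h1.symm
  · refine Eq.trans ?_ h2.symm
    rw [Fin.sum_univ_two]
    rfl

lemma cub_of_ball (U : Set (EuclideanSpace ℝ (Fin 2))) (hU : U ⊆ ball 0 (1 / 2)) :
    U ⊆ Pool.Agent.N248.RR.cub 2 := by
  intro x hx i
  have h1 : ‖x‖ < 1 / 2 := by simpa using hU hx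
  have h2 : |x i| ≤ ‖x‖ := PiLp.norm_apply_le x i
  linarith

open Pool.Agent.N248.RR in
lemma ext_eq (U : Set (EuclideanSpace ℝ (Fin 2))) (f : EuclideanSpace ℝ (Fin 2) → ℂ)
    (ξ : EuclideanSpace ℝ (Fin 3)) :
    ext U f ξ = ∫ x in U, ex ((-1) * ⟪Pool.Agent.R412.RT.Phi x, ξ⟫) * f x := by
  unfold ext ex
  refine integral_congr_ae (Filter.Eventually.of_forall fun x => ?_)
  simp only
  rw [Phi_eq]
  congr 2
  push_cast
  ring

open Pool.Agent.N248.RR in
lemma bounded_iff (U : Set (EuclideanSpace ℝ (Fin 2))) (s : ℝ≥0∞) (q : ℝ) (hq : 0 < q)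
    (W : Set (EuclideanSpace ℝ (Fin 3))) : Bounded U s q W ↔ Bdd (n := 2) (-1) U s q W := by
  have hq0 : ENNReal.ofReal q ≠ 0 := (ENNReal.ofReal_pos.2 hq).ne'
  have key : ∀ f : EuclideanSpace ℝ (Fin 2) → ℂ,
      eLpNorm (ext U f) (ENNReal.ofReal q) (volume.restrict W) ^ q =
        ∫⁻ x in W, ‖∫ ξ in U, ex ((-1) * ⟪Pool.Agent.R412.RT.Phi ξ, x⟫) * f ξ‖ₑ ^ q := by
    intro f
    rw [eLpNorm_eq_lintegral_rpow_enorm_toReal hq0 ENNReal.ofReal_ne_top,
      ENNReal.toReal_ofReal hq.le, ← ENNReal.rpow_mul, one_div, inv_mul_cancel₀ hq.ne',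
      ENNReal.rpow_one]
    refine lintegral_congr fun x => ?_
    rw [ext_eq]
  constructor
  · rintro ⟨C, hC⟩
    refine ⟨C ^ q, fun f hf => ?_⟩
    rw [← key f]
    refine (ENNReal.rpow_le_rpow (hC f hf) hq.le).trans ?_
    rw [ENNReal.mul_rpow_of_nonneg _ _ hq.le, ENNReal.coe_rpow_of_nonneg _ hq.le]
  · rintro ⟨C, hC⟩
    refine ⟨C ^ (1 / q), fun f hf => ?_⟩
    have h := hC f hf
    rw [← key f] at h
    have h2 := ENNReal.rpow_le_rpow h (show 0 ≤ 1 / q by positivity)
    rw [← ENNReal.rpow_mul, mul_one_div_cancel hq.ne', ENNReal.rpow_one,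
      ENNReal.mul_rpow_of_nonneg _ _ (by positivity : 0 ≤ 1 / q), ← ENNReal.rpow_mul,
      mul_one_div_cancel hq.ne', ENNReal.rpow_one] at h2
    rwa [ENNReal.coe_rpow_of_nonneg _ (by positivity : 0 ≤ 1 / q)]

open Pool.Agent.N248.RR in
lemma choice_rc {Ω : Type} [MeasurableSpace Ω] {P : Measure Ω} {A : (Fin 3 → ℤ) → Set Ω} {a : ℝ}
    (h : Choice P A a) : RC P A a := ⟨h.meas, h.indep, h.low, h.up⟩

open Pool.Agent.N248.RR in
lemma region_eq {Ω : Type} (A : (Fin 3 → ℤ) → Set Ω) (ω : Ω) :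
    region A ω = ⋃ j ∈ {j | ω ∈ A j}, uq j := rfl

open Pool.Agent.N248.RR in
lemma exists_cap (U : Set (EuclideanSpace ℝ (Fin 2))) (hU : (interior U).Nonempty) :
    ∃ (ξ₀ : EuclideanSpace ℝ (Fin 2)) (δ : ℝ), 0 < δ ∧ cap ξ₀ δ ⊆ U := by
  obtain ⟨x, hx⟩ := hU
  obtain ⟨r, hr, hrU⟩ := Metric.isOpen_iff.1 isOpen_interior x hx
  refine ⟨x, r / 2, by positivity, fun y hy => interior_subset (hrU ?_)⟩
  rw [mem_ball, dist_eq_norm, EuclideanSpace.norm_eq]
  have h : ∑ i, ‖(y - x) i‖ ^ 2 < r ^ 2 := by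
    have h1 : ∀ i, ‖(y - x) i‖ ^ 2 ≤ (r / 2) ^ 2 := by
      intro i
      rw [Real.norm_eq_abs]
      exact pow_le_pow_left₀ (abs_nonneg _) (hy i) 2
    calc ∑ i, ‖(y - x) i‖ ^ 2 ≤ ∑ _i : Fin 2, (r / 2) ^ 2 := Finset.sum_le_sum fun i _ => h1 i
      _ = r ^ 2 / 2 := by
        rw [Finset.sum_const, Finset.card_univ, Fintype.card_fin, nsmul_eq_mul]
        push_cast
        ring
      _ < r ^ 2 := by nlinarith [pow_pos hr 2]
  calc Real.sqrt (∑ i, ‖(y - x) i‖ ^ 2) < Real.sqrt (r ^ 2) :=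
        Real.sqrt_lt_sqrt (by positivity) h
    _ = r := Real.sqrt_sq hr.le

open Pool.Agent.N248.RR in
/-- **The extension conjecture for the paraboloid in `ℝ³` on random regions.** Let `0 < a ≤ 1` and
let `W = region A ω` be the union of the unit cubes that are chosen independently with probabilities
comparable with `(1 + |j|)^(-a)`.

(1) Almost surely: for all `s ≥ 2` and `q > 4 - 2a` the extension operator is bounded from `L^s(U)`
to `L^q(W)`; for `0 < q < 4 - 2a` it is not bounded from `L²(U)` to `L^q(W)`; for `0 < q < 3 - a` it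
is not bounded from `L^s(U)` to `L^q(W)` for any `s`.

(2) Let `s ≥ 2`, `p ≥ 2`, and let the extension operator be bounded from `L^s(U)` to `L^p'(ℝ³)` for
all `p' > p`. Then almost surely it is bounded from `L^s(U)` to `L^q(W)` for all
`q > p - a (p - 2)`.

(3) If the answer to the question is positive for `U`, then almost surely the extension operator is
bounded from `L^∞(U)` to `L^q(W)` for all `q > 3 - a`. -/
theorem result (U : Set (EuclideanSpace ℝ (Fin 2))) (hUm : MeasurableSet U)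
    (hU : U ⊆ ball 0 (1 / 2)) (hUi : (interior U).Nonempty)
    (Ω : Type) [MeasurableSpace Ω] (P : Measure Ω) [IsProbabilityMeasure P]
    (A : (Fin 3 → ℤ) → Set Ω) (a : ℝ) (ha : 0 < a) (ha1 : a ≤ 1) (hA : Choice P A a) :
    (∀ᵐ ω ∂P,
      (∀ s : ℝ≥0∞, 2 ≤ s → ∀ q : ℝ, 4 - 2 * a < q → Bounded U s q (region A ω)) ∧
      (∀ q : ℝ, 0 < q → q < 4 - 2 * a → ¬ Bounded U 2 q (region A ω)) ∧
      (∀ (s : ℝ≥0∞) (q : ℝ), 0 < q → q < 3 - a → ¬ Bounded U s q (region A ω))) ∧
    (∀ (s : ℝ≥0∞) (p : ℝ), 2 ≤ s → 2 ≤ p → (∀ p' : ℝ, p < p' → Bounded U s p' univ) →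
      ∀ᵐ ω ∂P, ∀ q : ℝ, p - a * (p - 2) < q → Bounded U s q (region A ω)) ∧
    ((∀ q : ℝ, 3 < q → Bounded U (ENNReal.ofReal q) q univ) →
      ∀ᵐ ω ∂P, ∀ q : ℝ, 3 - a < q → Bounded U ∞ q (region A ω)) := by
  have hUc := cub_of_ball U hU
  have hR := choice_rc hA
  obtain ⟨ξ₀, δ, hδ, hcU⟩ := exists_cap U hUi
  have h1 := bdd_two (n := 2) (by norm_num) (-1) (by norm_num) U hUm hUc P A a ha ha1 hR
  have h2 := not_bdd_two (n := 2) (by norm_num) (-1) U hUm ξ₀ δ hδ hcU P A a ha ha1 hR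
  have h3 := not_bdd_top (n := 2) (by norm_num) (-1) (by norm_num) U hUc ξ₀ δ hδ hcU P A a ha ha1 hR
  have hcl : ∀ (s : ℝ≥0∞) (p : ℝ), 2 ≤ s → 2 ≤ p → (∀ p' : ℝ, p < p' → Bounded U s p' univ) →
      ∀ᵐ ω ∂P, ∀ q : ℝ, p - a * (p - 2) < q → Bounded U s q (region A ω) := by
    intro s p hs hp hb
    have h4 := bdd_class (n := 2) (by norm_num) (-1) (by norm_num) U hUm hUc P A a ha ha1 hR s hs p
      hp (fun p' hp' => (bounded_iff U s p' (by linarith) univ).1 (hb p' hp'))
    filter_upwards [h4] with ω hω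
    intro q hq
    have hq0 : 0 < q := by nlinarith
    exact (bounded_iff U s q hq0 _).2 (hω q hq)
  refine ⟨?_, hcl, ?_⟩
  · filter_upwards [h1, h2, h3] with ω w1 w2 w3
    refine ⟨fun s hs q hq => ?_, fun q hq0 hq hb => ?_, fun s q hq0 hq hb => ?_⟩
    · refine (bounded_iff U s q (by linarith) _).2 (w1 s hs q ?_)
      push_cast
      linarith
    · refine w2 q hq0 ?_ ((bounded_iff U 2 q hq0 _).1 hb)
      push_cast
      linarith
    · refine w3 s q hq0 ?_ ((bounded_iff U s q hq0 _).1 hb)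
      push_cast
      linarith
  · intro hQ
    have hfin : IsFiniteMeasure ((volume : Measure (EuclideanSpace ℝ (Fin 2))).restrict U) :=
      ⟨by
        rw [Measure.restrict_apply_univ]
        exact (measure_mono hUc).trans_lt (cub_vol 2).lt_top⟩
    have h5 : ∀ p' : ℝ, 3 < p' → Bounded U ∞ p' univ := by
      intro p' hp'
      obtain ⟨C, hC⟩ := hQ p' hp'
      set K : ℝ≥0∞ := (volume.restrict U) univ ^ (1 / (ENNReal.ofReal p').toReal -
        1 / (∞ : ℝ≥0∞).toReal) with hK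
      have hKt : K ≠ ∞ := by
        refine ENNReal.rpow_ne_top_of_nonneg ?_ (measure_ne_top _ _)
        simp
      refine ⟨C * K.toNNReal, fun f hf => ?_⟩
      have hf' : MemLp f (ENNReal.ofReal p') (volume.restrict U) := hf.mono_exponent le_top
      refine (hC f hf').trans ?_
      rw [ENNReal.coe_mul, ENNReal.coe_toNNReal hKt, mul_assoc, mul_comm K]
      refine mul_le_mul' le_rfl ?_
      exact eLpNorm_le_eLpNorm_mul_rpow_measure_univ le_top hf.1
    have h6 := hcl ∞ 3 le_top (by norm_num) h5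
    filter_upwards [h6] with ω hω
    intro q hq
    exact hω q (by linarith)

end Pool.Agent.Results.MP_5ab805_an.RandomRegions
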